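import Pool.Agent.H75.VK.Inv

/-!
# The invariant rule, and its comparison with Fox colourings on classical diagrams
-/

set_option autoImplicit false
set_option linter.unusedSectionVars false

namespace Pool.Agent.H75.VK

open Finset

section

variable {M : Type} [AddCommGroup M]

/-- the rule whose number of colourings is invariant under virtualization -/
def brule (M : Type) [AddCommGroup M] : Rule (M × M) where
  pair := fun x => (x.2, x.1)
  cross := fun s x y => if s then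
      ((x.1 + y.1 - x.2, x.1 + x.2 - y.2), (x.1 + y.1 - y.2, y.2 + y.1 - x.2))
    else ((x.1 + x.2 - y.1, x.2 + y.2 - x.1), (y.1 + y.2 - x.1, y.2 + x.2 - y.1))

theorem brule_good : (brule M).Good := by
  constructor
  · rintro ⟨a, b⟩; rfl
  · rintro (_ | _) ⟨a, b⟩ <;> ext <;> simp [brule]
  · rintro (_ | _) ⟨a, b⟩ ⟨c, d⟩ <;> ext <;> simp [brule] <;> abel
  · rintro (_ | _) ⟨a, b⟩ ⟨c, d⟩ <;> ext <;> simp [brule] <;> abel
  · rintro (_ | _) ⟨a, b⟩ ⟨c, d⟩ <;> ext <;> simp [brule] <;> abel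
  · rintro (_ | _) ⟨a, b⟩ ⟨c, d⟩ ⟨e, f⟩ <;> ext <;> simp [brule] <;> abel
  · rintro (_ | _) ⟨a, b⟩ ⟨c, d⟩ ⟨e, f⟩ <;> ext <;> simp [brule] <;> abel
  · rintro (_ | _) ⟨a, b⟩ ⟨c, d⟩ ⟨e, f⟩ <;> ext <;> simp [brule] <;> abel

end

end Pool.Agent.H75.VK
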