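import Pool.Agent.H75.VK.Brule

/-!
# Comparison with Fox colourings on classical diagrams
-/

set_option autoImplicit false
set_option linter.unusedSectionVars false

namespace Pool.Agent.H75.VK

open Finset

section

variable {M : Type} [AddCommGroup M]

/-- the colour of a strand with Fox colour `c` and region `ρ` on its left; `e` is the parity of
the number of strands on the left -/
def phi (e : Bool) (ρ c : M × M) : M × M :=
  if e then (ρ.1 + (c.2 + c.2 - ρ.2), (c.1 + c.1 - ρ.1) - ρ.2)
  else (ρ.1 - (c.2 + c.2 - ρ.2), (c.1 + c.1 - ρ.1) + ρ.2)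

/-- colours of all strands -/
def T : Bool → M × M → List (M × M) → List (M × M)
  | _, _, [] => []
  | e, ρ, c :: cs => phi e ρ c :: T (!e) (c + c - ρ) cs

theorem pair_phi (e : Bool) (ρ c : M × M) :
    (brule M).pair (phi e ρ c) = phi (!e) (c + c - ρ) c := by
  cases e <;> ext <;> simp [brule, phi]

theorem cross_phi₁ (σ e : Bool) (ρ c d : M × M) :
    ((brule M).cross σ (phi e ρ c) (phi (!e) (c + c - ρ) d)).1 =
      phi e ρ ((fox (M × M)).cross σ c d).1 := by
  cases σ <;> cases e <;> ext <;> simp [brule, phi, fox] <;> abel

theorem cross_phi₂ (σ e : Bool) (ρ c d : M × M) :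
    ((brule M).cross σ (phi e ρ c) (phi (!e) (c + c - ρ) d)).2 =
      phi (!e) (((fox (M × M)).cross σ c d).1 + ((fox (M × M)).cross σ c d).1 - ρ)
        ((fox (M × M)).cross σ c d).2 := by
  cases σ <;> cases e <;> ext <;> simp [brule, phi, fox] <;> abel

theorem cross_region (σ : Bool) (ρ c d : M × M) :
    ((fox (M × M)).cross σ c d).2 + ((fox (M × M)).cross σ c d).2 -
      (((fox (M × M)).cross σ c d).1 + ((fox (M × M)).cross σ c d).1 - ρ) =
      d + d - (c + c - ρ) := by
  cases σ <;> simp [fox] <;> abel

variable [Fintype M] [DecidableEq M]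

theorem phi_injective (hM : Odd (Nat.card M)) (e : Bool) (ρ : M × M) :
    Function.Injective (phi e ρ) := by
  have h2 : Function.Injective (fun x : M => x + x) := by
    have := (Nat.Coprime.nsmul_right_bijective (G := M) (n := 2)
      (Nat.coprime_two_right.2 hM)).injective
    intro x y hxy
    apply this
    simpa [two_nsmul] using hxy
  rintro ⟨a, b⟩ ⟨c, d⟩ h
  have key : a + a = c + c ∧ b + b = d + d := by
    cases e
    · simp only [phi, Bool.false_eq_true, if_false, Prod.mk.injEq, add_left_inj, sub_left_inj,
        sub_right_inj] at h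
      exact ⟨h.2, h.1⟩
    · simp only [phi, if_true, Prod.mk.injEq, add_right_inj, sub_left_inj] at h
      exact ⟨h.2, h.1⟩
  exact Prod.ext (h2 key.1) (h2 key.2)

theorem ev_T (hM : Odd (Nat.card M)) (κ : Kind) (hκ : κ ≠ .virt) (i : ℕ)
    (F : List (M × M) → ℕ) (e : Bool) (ρ : M × M) (s : List (M × M)) :
    ev (brule M) κ i F (T e ρ s) = ev (fox (M × M)) κ i (fun s' => F (T e ρ s')) s := by
  induction i generalizing F e ρ s with
  | zero =>
    simp only [ev]
    cases κ with
    | virt => exact absurd rfl hκ
    | cup =>
      have hbij : Function.Bijective (phi e ρ : M × M → M × M) :=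
        Finite.injective_iff_bijective.1 (phi_injective hM e ρ)
      simp only [ev0]
      rw [← hbij.sum_comp]
      apply Finset.sum_congr rfl
      intro c _
      have hc : c + c - (c + c - ρ) = ρ := by abel
      simp only [T, pair_phi, fox, id, Bool.not_not, hc]
    | cap =>
      rcases s with _ | ⟨c, _ | ⟨d, s⟩⟩
      · simp only [T, ev0]
      · simp only [T, ev0]
      · simp only [T, ev0, pair_phi, fox, id, Bool.not_not]
        by_cases h : d = c
        · subst h
          have : d + d - (d + d - ρ) = ρ := by abel
          simp [this]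
        · rw [if_neg h, if_neg]
          intro h'
          exact h (phi_injective hM _ _ h')
    | cr σ =>
      rcases s with _ | ⟨c, _ | ⟨d, s⟩⟩
      · simp only [T, ev0]
      · simp only [T, ev0]
      · simp only [T, ev0, Bool.not_not, cross_phi₁, cross_phi₂, cross_region]
  | succ i ih =>
    rcases s with _ | ⟨c, s⟩
    · simp only [T, ev]
    · simp only [T, ev]
      exact ih (fun s' => F (phi e ρ c :: s')) (!e) (c + c - ρ) s

theorem eval_T (hM : Odd (Nat.card M)) (w : Word) (hw : IsClassical w)
    (F : List (M × M) → ℕ) (e : Bool) (ρ : M × M) (s : List (M × M)) :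
    eval (brule M) w F (T e ρ s) = eval (fox (M × M)) w (fun s' => F (T e ρ s')) s := by
  induction w generalizing s with
  | nil => rfl
  | cons p w ih =>
    simp only [eval]
    rw [ev_T hM p.1 (hw p (by simp))]
    congr 1
    funext s'
    exact ih (fun q hq => hw q (List.mem_cons_of_mem _ hq)) s'

theorem eval_classical (hM : Odd (Nat.card M)) (w : Word) (hw : IsClassical w) :
    eval (brule M) w dl [] = eval (fox (M × M)) w dl [] := by
  have h := eval_T hM w hw dl false 0 []
  simp only [T] at h
  rw [h]
  congr 1
  funext s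
  rcases s with _ | ⟨c, s⟩ <;> simp [dl, T]

end

section

variable {M : Type} [AddCommGroup M] [Fintype M] [DecidableEq M]

theorem ev_prod (κ : Kind) (i : ℕ) (F G : List M → ℕ) (s : List (M × M)) :
    ev (fox (M × M)) κ i (fun s' => F (s'.map Prod.fst) * G (s'.map Prod.snd)) s =
      ev (fox M) κ i F (s.map Prod.fst) * ev (fox M) κ i G (s.map Prod.snd) := by
  induction i generalizing F G s with
  | zero =>
    simp only [ev]
    cases κ with
    | cup =>
      simp only [ev0, fox, id, List.map_cons]
      rw [Fintype.sum_prod_type, Finset.sum_mul_sum]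
    | cap =>
      rcases s with _ | ⟨⟨a, b⟩, _ | ⟨⟨c, d⟩, s⟩⟩
      · simp [ev0]
      · simp [ev0]
      · simp only [ev0, fox, id, List.map_cons, Prod.mk.injEq]
        by_cases h1 : c = a <;> by_cases h2 : d = b <;> simp [h1, h2]
    | cr σ =>
      rcases s with _ | ⟨⟨a, b⟩, _ | ⟨⟨c, d⟩, s⟩⟩
      · simp [ev0]
      · simp [ev0]
      · cases σ <;> simp [ev0, fox]
    | virt =>
      rcases s with _ | ⟨⟨a, b⟩, _ | ⟨⟨c, d⟩, s⟩⟩
      · simp [ev0]
      · simp [ev0]
      · simp [ev0]
  | succ i ih =>
    rcases s with _ | ⟨c, s⟩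
    · simp [ev]
    · simp only [ev, List.map_cons]
      exact ih (fun s' => F (c.1 :: s')) (fun s' => G (c.2 :: s')) s

theorem eval_prod (w : Word) (F G : List M → ℕ) (s : List (M × M)) :
    eval (fox (M × M)) w (fun s' => F (s'.map Prod.fst) * G (s'.map Prod.snd)) s =
      eval (fox M) w F (s.map Prod.fst) * eval (fox M) w G (s.map Prod.snd) := by
  induction w generalizing s with
  | nil => rfl
  | cons p w ih =>
    simp only [eval]
    rw [← ev_prod]
    congr 1
    funext s'
    exact ih s'

theorem eval_square (w : Word) :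
    eval (fox (M × M)) w dl [] = eval (fox M) w dl [] * eval (fox M) w dl [] := by
  have h := eval_prod (M := M) w dl dl []
  simp only [List.map_nil] at h
  rw [← h]
  congr 1
  funext s
  rcases s with _ | ⟨c, s⟩ <;> simp [dl]

end

/-- Fox colouring numbers of classical diagrams are invariant under the generalized Reidemeister
moves and virtualization. -/
theorem foxNumber_invariant (M : Type) [AddCommGroup M] [Finite M] (hM : Odd (Nat.card M))
    {D D' : Word} (hD : IsClassical D) (hD' : IsClassical D') (h : Related D D') :
    foxNumber M D = foxNumber M D' := by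
  classical
  have := Fintype.ofFinite M
  unfold foxNumber
  rw [ncard_colouring, ncard_colouring]
  have h1 := related_inv (brule_good (M := M)) h
  rw [eval_classical hM D hD, eval_classical hM D' hD', eval_square, eval_square] at h1
  exact Nat.mul_self_inj.1 h1

end Pool.Agent.H75.VK
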