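import Mathlib

/-!
# Virtual link diagrams, generalized Reidemeister moves, virtualization, Fox colourings

A (virtual) link diagram in general position with respect to a height function is read from the
bottom to the top as a word in elementary pieces.  The piece `(κ, i)` has `i` vertical strands on
its left; `κ` is

* `cup`    : a local minimum (two new strands `i`, `i + 1`),
* `cap`    : a local maximum (it joins the strands `i` and `i + 1`),
* `cr s`   : a classical crossing of the strands `i`, `i + 1`; for `s = true` the strand from the
  lower left to the upper right is the over strand, for `s = false` the other one,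
* `virt`   : a virtual crossing of the strands `i`, `i + 1`.
-/

set_option autoImplicit false

namespace Pool.Agent.H75.VK

/-- elementary pieces of a virtual link diagram -/
inductive Kind
  | cup
  | cap
  | cr (s : Bool)
  | virt
  deriving DecidableEq

/-- number of strands which enter a piece from below -/
def Kind.inp : Kind → ℕ
  | .cup => 0
  | .cap => 2
  | .cr _ => 2
  | .virt => 2

/-- number of strands which leave a piece at its top -/
def Kind.out : Kind → ℕ
  | .cup => 2
  | .cap => 0
  | .cr _ => 2
  | .virt => 2

/-- words in elementary pieces, read from the bottom to the top -/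
abbrev Word : Type := List (Kind × ℕ)

/-- the number of strands at the top of the word `w`, if it starts with `n` strands at the bottom
(`none` if some piece of the word has not enough strands below it) -/
def ends : Word → ℕ → Option ℕ
  | [], n => some n
  | (κ, i) :: w, n => if i + κ.inp ≤ n then ends w (n - κ.inp + κ.out) else none

/-- `w` is a virtual link diagram: no strands at the bottom, no strands at the top -/
def IsDiagram (w : Word) : Prop := ends w 0 = some 0

/-- a diagram without virtual crossings -/
def IsClassical (w : Word) : Prop := ∀ p ∈ w, p.1 ≠ Kind.virt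

/-- `k` further strands on the left -/
def lift (k : ℕ) (w : Word) : Word := w.map fun p => (p.1, p.2 + k)

/-- The local moves: planar isotopy, the classical, the virtual and the mixed Reidemeister moves,
and crossing virtualization (`virtualize`).  The crossing which is virtualized is drawn in such a
way that its two strands are directed upwards (or both downwards). -/
inductive Move : Word → Word → Prop
  -- planar isotopy
  | far (κ κ' : Kind) (d : ℕ) : Move [(κ, 0), (κ', κ.out + d)] [(κ', κ.inp + d), (κ, 0)]
  | zig₁ : Move [(.cup, 0), (.cap, 1)] []
  | zig₂ : Move [(.cup, 1), (.cap, 0)] []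
  | turn_cup (s : Bool) : Move [(.cup, 0), (.cr s, 1)] [(.cup, 1), (.cr (!s), 0)]
  | turn_cap (s : Bool) : Move [(.cr s, 1), (.cap, 0)] [(.cr (!s), 0), (.cap, 1)]
  | turn_cup_virt : Move [(.cup, 0), (.virt, 1)] [(.cup, 1), (.virt, 0)]
  | turn_cap_virt : Move [(.virt, 1), (.cap, 0)] [(.virt, 0), (.cap, 1)]
  -- classical Reidemeister moves
  | r1_cup (s : Bool) : Move [(.cup, 0), (.cr s, 0)] [(.cup, 0)]
  | r1_cap (s : Bool) : Move [(.cr s, 0), (.cap, 0)] [(.cap, 0)]
  | r2 (s : Bool) : Move [(.cr s, 0), (.cr (!s), 0)] []
  | r3 (s : Bool) : Move [(.cr s, 0), (.cr s, 1), (.cr s, 0)] [(.cr s, 1), (.cr s, 0), (.cr s, 1)]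
  -- virtual Reidemeister moves
  | v1_cup : Move [(.cup, 0), (.virt, 0)] [(.cup, 0)]
  | v1_cap : Move [(.virt, 0), (.cap, 0)] [(.cap, 0)]
  | v2 : Move [(.virt, 0), (.virt, 0)] []
  | v3 : Move [(.virt, 0), (.virt, 1), (.virt, 0)] [(.virt, 1), (.virt, 0), (.virt, 1)]
  -- the mixed move
  | mixed₁ (s : Bool) :
      Move [(.virt, 0), (.virt, 1), (.cr s, 0)] [(.cr s, 1), (.virt, 0), (.virt, 1)]
  | mixed₂ (s : Bool) :
      Move [(.virt, 1), (.virt, 0), (.cr s, 1)] [(.cr s, 0), (.virt, 1), (.virt, 0)]
  -- crossing virtualization
  | virtualize (s : Bool) : Move [(.cr s, 0)] [(.virt, 0), (.cr s, 0), (.virt, 0)]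

/-- one move, applied somewhere in a diagram -/
inductive Step : Word → Word → Prop
  | mk (a u v b : Word) (k : ℕ) (h : Move u v) (h₁ : IsDiagram (a ++ lift k u ++ b))
      (h₂ : IsDiagram (a ++ lift k v ++ b)) : Step (a ++ lift k u ++ b) (a ++ lift k v ++ b)

/-- Two virtual diagrams are related by a finite sequence of planar isotopies, generalized
Reidemeister moves, crossing virtualizations and their inverses. -/
def Related : Word → Word → Prop := Relation.EqvGen Step

/-- A rule for colouring the strands of a diagram by elements of `X`: the right strand of a cup or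
cap with left strand coloured `x` is coloured `pair x`; if the strands below a classical crossing
are coloured `x`, `y` then those above it are coloured `(cross s x y).1`, `(cross s x y).2`. -/
structure Rule (X : Type) where
  pair : X → X
  cross : Bool → X → X → X × X

/-- the colours `s` of the strands below and `s'` above the piece `(κ, i)` fit together -/
def Rule.Fits {X : Type} (r : Rule X) (κ : Kind) (i : ℕ) (s s' : List X) : Prop :=
  ∃ a b : List X, a.length = i ∧
    match κ with
    | .cup => ∃ x, s = a ++ b ∧ s' = a ++ x :: r.pair x :: b
    | .cap => ∃ x, s = a ++ x :: r.pair x :: b ∧ s' = a ++ b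
    | .cr σ => ∃ x y, s = a ++ x :: y :: b ∧
        s' = a ++ (r.cross σ x y).1 :: (r.cross σ x y).2 :: b
    | .virt => ∃ x y, s = a ++ x :: y :: b ∧ s' = a ++ y :: x :: b

/-- `ss` is a colouring of the word `w` with colours `s` at the bottom (and no strands at the
top): the list of the colours of the strands above the first, the second, ... piece -/
def Rule.Colouring {X : Type} (r : Rule X) : Word → List X → List (List X) → Prop
  | [], s, ss => s = [] ∧ ss = []
  | _ :: _, _, [] => False
  | p :: w, s, s' :: ss => r.Fits p.1 p.2 s s' ∧ r.Colouring w s' ss

/-- Fox colourings with values in an abelian group `M`: both legs of a cup or cap have the same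
colour, the over strand of a crossing keeps its colour `c`, the under strand changes from `d` to
`2 c - d`. -/
def fox (M : Type) [AddCommGroup M] : Rule M where
  pair := id
  cross := fun s x y => if s then (x + x - y, x) else (y, y + y - x)

/-- the number of Fox colourings of a diagram with values in `M` -/
noncomputable def foxNumber (M : Type) [AddCommGroup M] (D : Word) : ℕ :=
  Set.ncard {ss : List (List M) | (fox M).Colouring D [] ss}

end Pool.Agent.H75.VK
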