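import Pool.Agent.H75.VK.Defs

/-!
# Counting colourings with a transfer operator
-/

set_option autoImplicit false

namespace Pool.Agent.H75.VK

open Finset

section

variable {X : Type} [Fintype X] [DecidableEq X]

/-- transfer operator of a piece on the left -/
def ev0 (r : Rule X) : Kind → (List X → ℕ) → List X → ℕ
  | .cup, F, t => ∑ x, F (x :: r.pair x :: t)
  | .cap, F, x :: y :: t => if y = r.pair x then F t else 0
  | .cr σ, F, x :: y :: t => F ((r.cross σ x y).1 :: (r.cross σ x y).2 :: t)
  | .virt, F, x :: y :: t => F (y :: x :: t)
  | .cap, _, [] => 0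
  | .cap, _, [_] => 0
  | .cr _, _, [] => 0
  | .cr _, _, [_] => 0
  | .virt, _, [] => 0
  | .virt, _, [_] => 0

/-- transfer operator of a piece -/
def ev (r : Rule X) (κ : Kind) : ℕ → (List X → ℕ) → List X → ℕ
  | 0, F, t => ev0 r κ F t
  | _ + 1, _, [] => 0
  | i + 1, F, z :: t => ev r κ i (fun s => F (z :: s)) t

/-- transfer operator of a word -/
def eval (r : Rule X) : Word → (List X → ℕ) → List X → ℕ
  | [], F => F
  | p :: w, F => ev r p.1 p.2 (eval r w F)

/-- indicator of the empty list -/
def dl (s : List X) : ℕ := if s = [] then 1 else 0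

theorem eval_append (r : Rule X) (a b : Word) (F : List X → ℕ) :
    eval r (a ++ b) F = eval r a (eval r b F) := by
  induction a with
  | nil => rfl
  | cons p w ih => simp only [List.cons_append, eval, ih]

theorem ev_sum {ι : Type} [Fintype ι] (r : Rule X) (κ : Kind) (i : ℕ) (G : ι → List X → ℕ)
    (t : List X) : ev r κ i (fun s => ∑ a, G a s) t = ∑ a, ev r κ i (G a) t := by
  induction i generalizing G t with
  | zero =>
    simp only [ev]
    cases κ with
    | cup => simp only [ev0]; exact Finset.sum_comm
    | cap =>
      rcases t with _ | ⟨x, _ | ⟨y, t⟩⟩ <;> simp only [ev0, Finset.sum_const_zero]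
      by_cases h : y = r.pair x <;> simp [h]
    | cr σ => rcases t with _ | ⟨x, _ | ⟨y, t⟩⟩ <;> simp only [ev0, Finset.sum_const_zero]
    | virt => rcases t with _ | ⟨x, _ | ⟨y, t⟩⟩ <;> simp only [ev0, Finset.sum_const_zero]
  | succ i ih =>
    rcases t with _ | ⟨z, t⟩
    · simp only [ev, Finset.sum_const_zero]
    · simp only [ev]
      exact ih (fun a s => G a (z :: s)) t

theorem ev_zero (r : Rule X) (κ : Kind) (i : ℕ) (t : List X) :
    ev r κ i (fun _ => 0) t = 0 := by
  have := ev_sum (ι := Empty) r κ i (fun _ _ => 0) t
  simpa using this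

theorem eval_lift_succ (r : Rule X) (k : ℕ) (w : Word) (F : List X → ℕ) (z : X) (t : List X) :
    eval r (lift (k + 1) w) F (z :: t) = eval r (lift k w) (fun s => F (z :: s)) t := by
  induction w generalizing F t with
  | nil => rfl
  | cons p w ih =>
    simp only [lift, List.map_cons, eval] at ih ⊢
    rw [← Nat.add_assoc]
    simp only [ev]
    congr 1
    funext s
    exact ih F s

theorem lift_zero (w : Word) : lift 0 w = w := by simp [lift]

theorem ends_append (a b : Word) (n : ℕ) : ends (a ++ b) n = (ends a n).bind (ends b) := by
  induction a generalizing n with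
  | nil => rfl
  | cons p w ih =>
    obtain ⟨κ, i⟩ := p
    simp only [List.cons_append, ends]
    split
    · exact ih _
    · rfl

theorem ends_lift (k : ℕ) (w : Word) (n : ℕ) (h : (ends (lift k w) (n + k)).isSome) :
    (ends w n).isSome := by
  induction w generalizing n with
  | nil => rfl
  | cons p w ih =>
    obtain ⟨κ, i⟩ := p
    simp only [lift, List.map_cons, ends] at h ih ⊢
    split at h
    · next hle =>
      have hi : i + κ.inp ≤ n := by omega
      rw [if_pos hi]
      apply ih
      have : n - κ.inp + κ.out + k = n + k - κ.inp + κ.out := by omega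
      rwa [this]
    · simp at h

/-- the value of a transfer operator depends only on the lists of the right length -/
theorem ev_congr (r : Rule X) (κ : Kind) (i : ℕ) (F G : List X → ℕ) (t : List X)
    (hi : i + κ.inp ≤ t.length)
    (h : ∀ s : List X, s.length = t.length - κ.inp + κ.out → F s = G s) :
    ev r κ i F t = ev r κ i G t := by
  induction i generalizing F G t with
  | zero =>
    simp only [ev]
    cases κ with
    | cup =>
      simp only [ev0]
      exact Finset.sum_congr rfl fun x _ => h _ (by simp [Kind.inp, Kind.out])
    | cap =>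
      rcases t with _ | ⟨x, _ | ⟨y, t⟩⟩ <;> simp only [ev0]
      rw [h t (by simp [Kind.inp, Kind.out])]
    | cr σ =>
      rcases t with _ | ⟨x, _ | ⟨y, t⟩⟩ <;> simp only [ev0]
      exact h _ (by simp [Kind.inp, Kind.out])
    | virt =>
      rcases t with _ | ⟨x, _ | ⟨y, t⟩⟩ <;> simp only [ev0]
      exact h _ (by simp [Kind.inp, Kind.out])
  | succ i ih =>
    rcases t with _ | ⟨z, t⟩
    · simp only [ev]
    · simp only [ev]
      simp only [List.length_cons] at hi h
      apply ih _ _ _ (by omega)
      intro s hs
      apply h
      simp only [List.length_cons]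
      omega

theorem eval_congr (r : Rule X) (w : Word) (F G : List X → ℕ) (t : List X) (n : ℕ)
    (hw : ends w t.length = some n) (h : ∀ s : List X, s.length = n → F s = G s) :
    eval r w F t = eval r w G t := by
  induction w generalizing t with
  | nil =>
    simp only [ends, Option.some.injEq] at hw
    exact h t hw
  | cons p w ih =>
    obtain ⟨κ, i⟩ := p
    simp only [ends] at hw
    split at hw
    · next hle =>
      simp only [eval]
      apply ev_congr r κ i _ _ t hle
      intro s hs
      apply ih
      rw [hs]
      exact hw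
    · simp at hw

/-! ### Counting -/

/-- the possible colours above a piece on the left -/
def next0 (r : Rule X) : Kind → List X → Finset (List X)
  | .cup, t => univ.image fun x => x :: r.pair x :: t
  | .cap, x :: y :: t => if y = r.pair x then {t} else ∅
  | .cr σ, x :: y :: t => {(r.cross σ x y).1 :: (r.cross σ x y).2 :: t}
  | .virt, x :: y :: t => {y :: x :: t}
  | .cap, [] => ∅
  | .cap, [_] => ∅
  | .cr _, [] => ∅
  | .cr _, [_] => ∅
  | .virt, [] => ∅
  | .virt, [_] => ∅

/-- the possible colours above a piece -/
def nexts (r : Rule X) (κ : Kind) : ℕ → List X → Finset (List X)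
  | 0, t => next0 r κ t
  | _ + 1, [] => ∅
  | i + 1, z :: t => (nexts r κ i t).image (fun s => z :: s)

theorem ev_eq_sum (r : Rule X) (κ : Kind) (i : ℕ) (F : List X → ℕ) (s : List X) :
    ev r κ i F s = ∑ s' ∈ nexts r κ i s, F s' := by
  induction i generalizing F s with
  | zero =>
    simp only [ev, nexts]
    cases κ with
    | cup =>
      simp only [ev0, next0]
      rw [Finset.sum_image]
      intro x _ y _ h
      simp only [List.cons.injEq] at h
      exact h.1
    | cap =>
      rcases s with _ | ⟨x, _ | ⟨y, t⟩⟩ <;> simp only [ev0, next0, Finset.sum_empty]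
      split <;> simp
    | cr σ =>
      rcases s with _ | ⟨x, _ | ⟨y, t⟩⟩ <;> simp [ev0, next0]
    | virt =>
      rcases s with _ | ⟨x, _ | ⟨y, t⟩⟩ <;> simp [ev0, next0]
  | succ i ih =>
    rcases s with _ | ⟨z, s⟩
    · simp [ev, nexts]
    · simp only [ev, nexts]
      rw [ih, Finset.sum_image]
      intro x _ y _ h
      simpa using h

theorem mem_nexts (r : Rule X) (κ : Kind) (i : ℕ) (s s' : List X) :
    s' ∈ nexts r κ i s ↔ r.Fits κ i s s' := by
  induction i generalizing s s' with
  | zero =>
    simp only [nexts, Rule.Fits]
    cases κ with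
    | cup =>
      simp only [next0, mem_image, mem_univ, true_and]
      constructor
      · rintro ⟨x, rfl⟩
        exact ⟨[], s, rfl, x, rfl, rfl⟩
      · rintro ⟨a, b, ha, x, h1, h2⟩
        obtain rfl := List.length_eq_zero_iff.1 ha
        simp only [List.nil_append] at h1 h2
        exact ⟨x, by rw [h1, h2]⟩
    | cap =>
      constructor
      · intro h
        rcases s with _ | ⟨x, _ | ⟨y, t⟩⟩
        · simp [next0] at h
        · simp [next0] at h
        · simp only [next0] at h
          split at h
          · next hy =>
            simp only [mem_singleton] at h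
            subst h hy
            exact ⟨[], s', rfl, x, rfl, rfl⟩
          · simp at h
      · rintro ⟨a, b, ha, x, h1, h2⟩
        obtain rfl := List.length_eq_zero_iff.1 ha
        simp only [List.nil_append] at h1 h2
        subst h1 h2
        simp [next0]
    | cr σ =>
      constructor
      · intro h
        rcases s with _ | ⟨x, _ | ⟨y, t⟩⟩
        · simp [next0] at h
        · simp [next0] at h
        · simp only [next0, mem_singleton] at h
          subst h
          exact ⟨[], t, rfl, x, y, rfl, rfl⟩
      · rintro ⟨a, b, ha, x, y, h1, h2⟩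
        obtain rfl := List.length_eq_zero_iff.1 ha
        simp only [List.nil_append] at h1 h2
        subst h1 h2
        simp [next0]
    | virt =>
      constructor
      · intro h
        rcases s with _ | ⟨x, _ | ⟨y, t⟩⟩
        · simp [next0] at h
        · simp [next0] at h
        · simp only [next0, mem_singleton] at h
          subst h
          exact ⟨[], t, rfl, x, y, rfl, rfl⟩
      · rintro ⟨a, b, ha, x, y, h1, h2⟩
        obtain rfl := List.length_eq_zero_iff.1 ha
        simp only [List.nil_append] at h1 h2
        subst h1 h2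
        simp [next0]
  | succ i ih =>
    rcases s with _ | ⟨z, s⟩
    · simp only [nexts, notMem_empty, false_iff, Rule.Fits]
      rintro ⟨a, b, ha, h⟩
      have hne : a ≠ [] := by rintro rfl; simp at ha
      cases κ with
      | cup => obtain ⟨x, h1, h2⟩ := h; simp [hne] at h1
      | cap => obtain ⟨x, h1, h2⟩ := h; simp at h1
      | cr σ => obtain ⟨x, y, h1, h2⟩ := h; simp at h1
      | virt => obtain ⟨x, y, h1, h2⟩ := h; simp at h1
    · simp only [nexts, mem_image, ih]
      constructor
      · rintro ⟨s'', ⟨a, b, ha, h⟩, rfl⟩
        refine ⟨z :: a, b, by simp [ha], ?_⟩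
        cases κ with
        | cup => obtain ⟨x, h1, h2⟩ := h; exact ⟨x, by simp [h1], by simp [h2]⟩
        | cap => obtain ⟨x, h1, h2⟩ := h; exact ⟨x, by simp [h1], by simp [h2]⟩
        | cr σ => obtain ⟨x, y, h1, h2⟩ := h; exact ⟨x, y, by simp [h1], by simp [h2]⟩
        | virt => obtain ⟨x, y, h1, h2⟩ := h; exact ⟨x, y, by simp [h1], by simp [h2]⟩
      · rintro ⟨a, b, ha, h⟩
        rcases a with _ | ⟨c, a⟩
        · simp at ha
        simp only [List.length_cons, Nat.add_right_cancel_iff] at ha
        cases κ with
        | cup =>
          obtain ⟨x, h1, h2⟩ := h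
          simp only [List.cons_append, List.cons.injEq] at h1
          obtain ⟨rfl, h1⟩ := h1
          exact ⟨a ++ x :: r.pair x :: b, ⟨a, b, ha, x, h1, rfl⟩, by simp [h2]⟩
        | cap =>
          obtain ⟨x, h1, h2⟩ := h
          simp only [List.cons_append, List.cons.injEq] at h1
          obtain ⟨rfl, h1⟩ := h1
          exact ⟨a ++ b, ⟨a, b, ha, x, h1, rfl⟩, by simp [h2]⟩
        | cr σ =>
          obtain ⟨x, y, h1, h2⟩ := h
          simp only [List.cons_append, List.cons.injEq] at h1
          obtain ⟨rfl, h1⟩ := h1
          exact ⟨a ++ (r.cross σ x y).1 :: (r.cross σ x y).2 :: b, ⟨a, b, ha, x, y, h1, rfl⟩,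
            by simp [h2]⟩
        | virt =>
          obtain ⟨x, y, h1, h2⟩ := h
          simp only [List.cons_append, List.cons.injEq] at h1
          obtain ⟨rfl, h1⟩ := h1
          exact ⟨a ++ y :: x :: b, ⟨a, b, ha, x, y, h1, rfl⟩, by simp [h2]⟩

/-- the colourings of a word -/
def cols (r : Rule X) : Word → List X → Finset (List (List X))
  | [], s => if s = [] then {[]} else ∅
  | p :: w, s => (nexts r p.1 p.2 s).biUnion fun s' => (cols r w s').image fun ss => s' :: ss

theorem mem_cols (r : Rule X) (w : Word) (s : List X) (ss : List (List X)) :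
    ss ∈ cols r w s ↔ r.Colouring w s ss := by
  induction w generalizing s ss with
  | nil =>
    simp only [cols, Rule.Colouring]
    split
    · next h => simp [h]
    · next h => simp [h]
  | cons p w ih =>
    simp only [cols, mem_biUnion, mem_image, ih, mem_nexts]
    constructor
    · rintro ⟨s', h1, ss', h2, rfl⟩
      exact ⟨h1, h2⟩
    · intro h
      rcases ss with _ | ⟨s', ss⟩
      · exact h.elim
      · exact ⟨s', h.1, ss, h.2, rfl⟩

theorem card_cols (r : Rule X) (w : Word) (s : List X) : (cols r w s).card = eval r w dl s := by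
  induction w generalizing s with
  | nil =>
    simp only [cols, eval, dl]
    split <;> simp
  | cons p w ih =>
    simp only [cols, eval]
    rw [Finset.card_biUnion, ev_eq_sum]
    · apply Finset.sum_congr rfl
      intro s' _
      rw [Finset.card_image_of_injective _ (by intro a b h; simpa using h), ih]
    · intro a _ b _ hab
      rw [Function.onFun, Finset.disjoint_left]
      intro ss h1 h2
      simp only [mem_image] at h1 h2
      obtain ⟨u, _, rfl⟩ := h1
      obtain ⟨v, _, h⟩ := h2
      simp only [List.cons.injEq] at h
      exact hab h.1.symm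

theorem ncard_colouring (r : Rule X) (w : Word) (s : List X) :
    Set.ncard {ss : List (List X) | r.Colouring w s ss} = eval r w dl s := by
  rw [← card_cols, ← Set.ncard_coe_finset]
  congr 1
  ext ss
  simp [mem_cols]

end

end Pool.Agent.H75.VK
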