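import Pool.Agent.H75.VK.Comp

/-!
# Examples
-/

set_option autoImplicit false

namespace Pool.Agent.H75.VK

section

variable {X : Type} [DecidableEq X]

/-- list version of `next0` -/
def nl0 (l : List X) (r : Rule X) : Kind → List X → List (List X)
  | .cup, t => l.map fun x => x :: r.pair x :: t
  | .cap, x :: y :: t => if y = r.pair x then [t] else []
  | .cr σ, x :: y :: t => [(r.cross σ x y).1 :: (r.cross σ x y).2 :: t]
  | .virt, x :: y :: t => [y :: x :: t]
  | .cap, [] => []
  | .cap, [_] => []
  | .cr _, [] => []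
  | .cr _, [_] => []
  | .virt, [] => []
  | .virt, [_] => []

/-- list version of `nexts` -/
def nl (l : List X) (r : Rule X) (κ : Kind) : ℕ → List X → List (List X)
  | 0, t => nl0 l r κ t
  | _ + 1, [] => []
  | i + 1, z :: t => (nl l r κ i t).map fun s => z :: s

/-- the list of the final states of a word -/
def el (l : List X) (r : Rule X) : Word → List X → List (List X)
  | [], s => [s]
  | p :: w, s => (nl l r p.1 p.2 s).flatMap (el l r w)

variable [Fintype X]

theorem ev_eq_nl (l : List X) (hl : ∀ f : X → ℕ, ∑ x, f x = (l.map f).sum) (r : Rule X) (κ : Kind)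
    (i : ℕ) (F : List X → ℕ) (s : List X) : ev r κ i F s = ((nl l r κ i s).map F).sum := by
  induction i generalizing F s with
  | zero =>
    simp only [ev, nl]
    cases κ with
    | cup =>
      simp only [ev0, nl0, hl, List.map_map]
      rfl
    | cap =>
      rcases s with _ | ⟨x, _ | ⟨y, t⟩⟩ <;> simp only [ev0, nl0, List.map_nil, List.sum_nil]
      split <;> simp
    | cr σ =>
      rcases s with _ | ⟨x, _ | ⟨y, t⟩⟩ <;> simp [ev0, nl0]
    | virt =>
      rcases s with _ | ⟨x, _ | ⟨y, t⟩⟩ <;> simp [ev0, nl0]
  | succ i ih =>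
    rcases s with _ | ⟨z, s⟩
    · simp [ev, nl]
    · simp only [ev, nl, List.map_map]
      exact ih (fun s => F (z :: s)) s

theorem sum_flatMap' {α : Type} (l : List α) (g : α → List ℕ) :
    (l.flatMap g).sum = (l.map fun a => (g a).sum).sum := by
  induction l with
  | nil => rfl
  | cons a l ih => simp [List.flatMap_cons, ih]

theorem eval_eq_el (l : List X) (hl : ∀ f : X → ℕ, ∑ x, f x = (l.map f).sum) (r : Rule X)
    (w : Word) (F : List X → ℕ) (s : List X) : eval r w F s = ((el l r w s).map F).sum := by
  induction w generalizing s with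
  | nil => simp [eval, el]
  | cons p w ih =>
    simp only [eval, el]
    rw [ev_eq_nl l hl, List.map_flatMap, sum_flatMap']
    congr 1
    apply List.map_congr_left
    intro s' _
    exact ih s'

end

/-- the figure eight knot `4₁` as a long knot: closure of the braid `(σ₁ σ₂⁻¹)²` in the strands
`1, 2` -/
def long41 : Word := [(.cup, 1), (.cup, 2), (.cr true, 0), (.cr false, 1), (.cr true, 0),
  (.cr false, 1), (.cap, 2), (.cap, 1)]

/-- the knot `8₉` as a long knot: closure of the braid `σ₁⁻³ σ₂ σ₁⁻¹ σ₂³` -/
def long89 : Word := [(.cup, 1), (.cup, 2), (.cr false, 0), (.cr false, 0), (.cr false, 0),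
  (.cr true, 1), (.cr false, 0), (.cr true, 1), (.cr true, 1), (.cr true, 1), (.cap, 2), (.cap, 1)]

theorem sum_zmod5 (f : ZMod 5 → ℕ) :
    ∑ x, f x = (([0, 1, 2, 3, 4] : List (ZMod 5)).map f).sum := by
  have : ∑ x : ZMod 5, f x = ∑ x : Fin 5, f x := rfl
  rw [this, Fin.sum_univ_five]
  simp only [List.map_cons, List.map_nil, List.sum_cons, List.sum_nil, Nat.add_zero]
  ring_nf
  rfl

set_option maxRecDepth 10000 in
theorem el_long41 : ∀ x y : ZMod 5, el [0, 1, 2, 3, 4] (fox (ZMod 5)) long41 [x, y] =
    List.replicate 5 [x, y] := by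
  decide +kernel

set_option maxRecDepth 10000 in
theorem el_long89 : ∀ x y : ZMod 5, el [0, 1, 2, 3, 4] (fox (ZMod 5)) long89 [x, y] =
    List.replicate 5 [x, y] := by
  decide +kernel

/-- `a` copies of `u` and then `b` copies of `v`, closed -/
def comb (u v : Word) : ℕ → ℕ → Word
  | 0, 0 => [(.cap, 0)]
  | 0, b + 1 => v ++ comb u v 0 b
  | a + 1, b => u ++ comb u v a b

theorem eval_long (L : Word) (c : ℕ)
    (hL : ∀ x y : ZMod 5, el [0, 1, 2, 3, 4] (fox (ZMod 5)) L [x, y] = List.replicate c [x, y])
    (F : List (ZMod 5) → ℕ) (x y : ZMod 5) :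
    eval (fox (ZMod 5)) L F [x, y] = c * F [x, y] := by
  rw [eval_eq_el [0, 1, 2, 3, 4] sum_zmod5, hL]
  simp

theorem eval_comb (u v : Word) (c : ℕ)
    (hu : ∀ x y : ZMod 5, el [0, 1, 2, 3, 4] (fox (ZMod 5)) u [x, y] = List.replicate c [x, y])
    (hv : ∀ x y : ZMod 5, el [0, 1, 2, 3, 4] (fox (ZMod 5)) v [x, y] = List.replicate c [x, y])
    (a b : ℕ) (x : ZMod 5) : eval (fox (ZMod 5)) (comb u v a b) dl [x, x] = c ^ (a + b) := by
  induction a with
  | zero =>
    induction b with
    | zero => simp [comb, eval, ev, ev0, fox, dl]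
    | succ b ih =>
      rw [comb, eval_append, eval_long v c hv, ih]
      ring
  | succ a ih =>
    rw [comb, eval_append, eval_long u c hu, ih]
    ring

theorem ends_comb (u v : Word) (hu : ends u 2 = some 2) (hv : ends v 2 = some 2) (a b : ℕ) :
    ends (comb u v a b) 2 = some 0 := by
  induction a with
  | zero =>
    induction b with
    | zero => simp [comb, ends, Kind.inp, Kind.out]
    | succ b ih =>
      rw [comb, ends_append, hv]
      exact ih
  | succ a ih =>
    rw [comb, ends_append, hu]
    exact ih

theorem classical_comb (u v : Word) (hu : IsClassical u) (hv : IsClassical v) (a b : ℕ) :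
    IsClassical (comb u v a b) := by
  induction a with
  | zero =>
    induction b with
    | zero =>
      intro p hp
      simp only [comb, List.mem_singleton] at hp
      subst hp
      simp
    | succ b ih =>
      intro p hp
      rw [comb, List.mem_append] at hp
      exact hp.elim (hv p) (ih p)
  | succ a ih =>
    intro p hp
    rw [comb, List.mem_append] at hp
    exact hp.elim (hu p) (ih p)

/-- The connected sum of `a` copies of the knot `8₉` and `b` copies of the knot `4₁`. -/
def sumKnot (a b : ℕ) : Word := (.cup, 0) :: comb long89 long41 a b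

theorem sumKnot_isDiagram (a b : ℕ) : IsDiagram (sumKnot a b) := by
  unfold IsDiagram sumKnot
  simp only [ends, Kind.inp, Kind.out]
  rw [if_pos (by omega)]
  exact ends_comb long89 long41 (by decide) (by decide) a b

theorem sumKnot_isClassical (a b : ℕ) : IsClassical (sumKnot a b) := by
  intro p hp
  rw [sumKnot, List.mem_cons] at hp
  rcases hp with rfl | hp
  · simp
  · exact classical_comb long89 long41 (by unfold IsClassical; decide)
      (by unfold IsClassical; decide) a b p hp

theorem foxNumber_sumKnot (a b : ℕ) : foxNumber (ZMod 5) (sumKnot a b) = 5 ^ (a + b + 1) := by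
  unfold foxNumber
  rw [ncard_colouring, sumKnot]
  simp only [eval, ev, ev0, fox, id]
  have h := eval_comb long89 long41 5 el_long89 el_long41 a b
  simp only [fox] at h
  simp only [h]
  simp only [Finset.sum_const, Finset.card_univ, ZMod.card, smul_eq_mul]
  ring

end Pool.Agent.H75.VK
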