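import Pool.Agent.H75.VK.Eval

/-!
# Rules whose colouring numbers are invariant under all moves
-/

set_option autoImplicit false
set_option linter.unusedSimpArgs false

namespace Pool.Agent.H75.VK

open Finset

section

variable {X : Type} [Fintype X] [DecidableEq X]

/-- the axioms which make the number of colourings invariant under the generalized Reidemeister
moves and virtualization -/
structure Rule.Good (r : Rule X) : Prop where
  pp : ∀ x, r.pair (r.pair x) = x
  fix : ∀ s x, r.cross s x (r.pair x) = (x, r.pair x)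
  inv : ∀ s x y, r.cross (!s) (r.cross s x y).1 (r.cross s x y).2 = (x, y)
  flip : ∀ s x y, r.cross s y x = ((r.cross s x y).2, (r.cross s x y).1)
  rot : ∀ s x y, r.cross (!s) y (r.pair (r.cross s x y).2) = (r.pair x, (r.cross s x y).1)
  ybe₁ : ∀ s x y z,
    (r.cross s (r.cross s x y).1 (r.cross s (r.cross s x y).2 z).1).1 =
      (r.cross s x (r.cross s y z).1).1
  ybe₂ : ∀ s x y z,
    (r.cross s (r.cross s x y).1 (r.cross s (r.cross s x y).2 z).1).2 =
      (r.cross s (r.cross s x (r.cross s y z).1).2 (r.cross s y z).2).1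
  ybe₃ : ∀ s x y z,
    (r.cross s (r.cross s x y).2 z).2 =
      (r.cross s (r.cross s x (r.cross s y z).1).2 (r.cross s y z).2).2

variable {r : Rule X}

omit [Fintype X] [DecidableEq X] in
theorem Rule.Good.rot' (hr : r.Good) (s : Bool) (x y : X) :
    r.cross (!s) (r.pair (r.cross s x y).1) x = ((r.cross s x y).2, r.pair y) := by
  have h1 := hr.rot s x y
  have h2 := hr.rot (!s) y (r.pair (r.cross s x y).2)
  rw [h1, Bool.not_not] at h2
  simp only at h2
  have h3 := hr.rot s (r.pair (r.cross s x y).2) (r.pair (r.cross s x y).1)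
  rw [h2] at h3
  simp only [hr.pp] at h3
  exact h3

theorem move_far (r : Rule X) (κ κ' : Kind) (d : ℕ) (F : List X → ℕ) (t : List X) :
    eval r [(κ, 0), (κ', κ.out + d)] F t = eval r [(κ', κ.inp + d), (κ, 0)] F t := by
  simp only [eval]
  cases κ with
  | cup =>
    simp only [ev, ev0, Kind.out, Kind.inp, Nat.add_comm 2 d, Nat.zero_add]
    exact (ev_sum r κ' d (fun x s => F (x :: r.pair x :: s)) t).symm
  | cap =>
    simp only [Kind.out, Kind.inp, Nat.zero_add, Nat.add_comm 2 d]
    rcases t with _ | ⟨x, _ | ⟨y, t⟩⟩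
    · rfl
    · rfl
    · simp only [ev, ev0]
      by_cases h : y = r.pair x
      · simp only [h, if_true]
      · simp only [h, if_false]
        exact (ev_zero r κ' d t).symm
  | cr σ =>
    simp only [Kind.out, Kind.inp, Nat.add_comm 2 d]
    rcases t with _ | ⟨x, _ | ⟨y, t⟩⟩
    · rfl
    · rfl
    · rfl
  | virt =>
    simp only [Kind.out, Kind.inp, Nat.add_comm 2 d]
    rcases t with _ | ⟨x, _ | ⟨y, t⟩⟩
    · rfl
    · rfl
    · rfl

theorem move_zero (hr : r.Good) {u v : Word} (h : Move u v) (F : List X → ℕ) (t : List X)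
    (ht : (ends u t.length).isSome) : eval r u F t = eval r v F t := by
  cases h with
  | far κ κ' d => exact move_far r κ κ' d F t
  | zig₁ =>
    rcases t with _ | ⟨x, t⟩
    · simp [ends, Kind.inp, Kind.out] at ht
    · simp only [eval, ev, ev0, hr.pp]
      simp [Finset.sum_ite_eq]
  | zig₂ =>
    rcases t with _ | ⟨x, t⟩
    · simp [ends, Kind.inp, Kind.out] at ht
    · simp only [eval, ev, ev0]
      simp [hr.pp]
  | turn_cup s =>
    rcases t with _ | ⟨x, t⟩
    · simp [ends, Kind.inp, Kind.out] at ht
    · simp only [eval, ev, ev0]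
      have key : ∀ a : X, r.cross (!s) x (r.pair (r.cross s (r.pair a) x).2) =
          (a, (r.cross s (r.pair a) x).1) := by
        intro a
        have := hr.rot s (r.pair a) x
        rwa [hr.pp] at this
      have hinj : Function.Injective (fun a : X => r.pair (r.cross s (r.pair a) x).2) := by
        intro a a' haa
        simp only at haa
        have h1 := key a
        rw [haa, key a'] at h1
        exact (congrArg Prod.fst h1).symm
      have hbij : Function.Bijective (fun a : X => r.pair (r.cross s (r.pair a) x).2) :=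
        Finite.injective_iff_bijective.1 hinj
      refine (Finset.sum_congr rfl ?_).trans (hbij.sum_comp _)
      intro a _
      simp only [key a, hr.pp]
  | turn_cap s =>
    rcases t with _ | ⟨x, _ | ⟨y, _ | ⟨z, t⟩⟩⟩
    · simp [ends, Kind.inp, Kind.out] at ht
    · simp [ends, Kind.inp, Kind.out] at ht
    · simp [ends, Kind.inp, Kind.out] at ht
    · simp only [eval, ev, ev0]
      by_cases h : (r.cross s y z).1 = r.pair x
      · have h1 := hr.rot' s y z
        rw [h, hr.pp] at h1
        rw [if_pos h, h1]
        simp only [hr.pp, if_true]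
      · rw [if_neg h, if_neg]
        intro hz
        apply h
        have h1 := hr.rot (!s) x y
        rw [Bool.not_not, ← hz] at h1
        rw [h1]
  | turn_cup_virt =>
    rcases t with _ | ⟨x, t⟩
    · simp [ends, Kind.inp, Kind.out] at ht
    · simp only [eval, ev, ev0]
  | turn_cap_virt =>
    rcases t with _ | ⟨x, _ | ⟨y, _ | ⟨z, t⟩⟩⟩
    · simp [ends, Kind.inp, Kind.out] at ht
    · simp [ends, Kind.inp, Kind.out] at ht
    · simp [ends, Kind.inp, Kind.out] at ht
    · simp only [eval, ev, ev0]
  | r1_cup s =>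
    simp only [eval, ev, ev0, hr.fix]
  | r1_cap s =>
    rcases t with _ | ⟨x, _ | ⟨y, t⟩⟩
    · simp [ends, Kind.inp, Kind.out] at ht
    · simp [ends, Kind.inp, Kind.out] at ht
    · simp only [eval, ev, ev0]
      congr 1
      apply propext
      constructor
      · intro h
        have h1 := hr.inv s x y
        rw [h, hr.fix] at h1
        simp only [Prod.mk.injEq] at h1
        exact h1.2.symm.trans (by rw [h1.1])
      · rintro rfl
        rw [hr.fix]
  | r2 s =>
    rcases t with _ | ⟨x, _ | ⟨y, t⟩⟩
    · simp [ends, Kind.inp, Kind.out] at ht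
    · simp [ends, Kind.inp, Kind.out] at ht
    · simp only [eval, ev, ev0, hr.inv]
  | r3 s =>
    rcases t with _ | ⟨x, _ | ⟨y, _ | ⟨z, t⟩⟩⟩
    · simp [ends, Kind.inp, Kind.out] at ht
    · simp [ends, Kind.inp, Kind.out] at ht
    · simp [ends, Kind.inp, Kind.out] at ht
    · simp only [eval, ev, ev0]
      rw [hr.ybe₁, hr.ybe₂, hr.ybe₃]
  | v1_cup =>
    simp only [eval, ev, ev0]
    have hbij : Function.Bijective r.pair :=
      (Function.Involutive.bijective (f := r.pair) hr.pp)
    rw [← hbij.sum_comp]
    simp only [hr.pp]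
  | v1_cap =>
    rcases t with _ | ⟨x, _ | ⟨y, t⟩⟩
    · simp [ends, Kind.inp, Kind.out] at ht
    · simp [ends, Kind.inp, Kind.out] at ht
    · simp only [eval, ev, ev0]
      congr 1
      apply propext
      constructor
      · intro h
        rw [h, hr.pp]
      · intro h
        rw [h, hr.pp]
  | v2 =>
    rcases t with _ | ⟨x, _ | ⟨y, t⟩⟩
    · simp [ends, Kind.inp, Kind.out] at ht
    · simp [ends, Kind.inp, Kind.out] at ht
    · simp only [eval, ev, ev0]
  | v3 =>
    rcases t with _ | ⟨x, _ | ⟨y, _ | ⟨z, t⟩⟩⟩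
    · simp [ends, Kind.inp, Kind.out] at ht
    · simp [ends, Kind.inp, Kind.out] at ht
    · simp [ends, Kind.inp, Kind.out] at ht
    · simp only [eval, ev, ev0]
  | mixed₁ s =>
    rcases t with _ | ⟨x, _ | ⟨y, _ | ⟨z, t⟩⟩⟩
    · simp [ends, Kind.inp, Kind.out] at ht
    · simp [ends, Kind.inp, Kind.out] at ht
    · simp [ends, Kind.inp, Kind.out] at ht
    · simp only [eval, ev, ev0]
  | mixed₂ s =>
    rcases t with _ | ⟨x, _ | ⟨y, _ | ⟨z, t⟩⟩⟩
    · simp [ends, Kind.inp, Kind.out] at ht
    · simp [ends, Kind.inp, Kind.out] at ht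
    · simp [ends, Kind.inp, Kind.out] at ht
    · simp only [eval, ev, ev0]
  | virtualize s =>
    rcases t with _ | ⟨x, _ | ⟨y, t⟩⟩
    · simp [ends, Kind.inp, Kind.out] at ht
    · simp [ends, Kind.inp, Kind.out] at ht
    · simp only [eval, ev, ev0]
      rw [hr.flip s x y]

/-- a word which needs at least one strand if it is shifted -/
theorem move_ne_nil {u v : Word} (h : Move u v) : u ≠ [] := by
  cases h <;> simp

theorem move_lift (hr : r.Good) {u v : Word} (h : Move u v) (k : ℕ) (F : List X → ℕ) (t : List X)
    (ht : (ends (lift k u) t.length).isSome) :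
    eval r (lift k u) F t = eval r (lift k v) F t := by
  induction k generalizing F t with
  | zero =>
    rw [lift_zero] at ht
    rw [lift_zero, lift_zero]
    exact move_zero hr h F t ht
  | succ k ih =>
    rcases t with _ | ⟨z, t⟩
    · exfalso
      obtain ⟨p, w, rfl⟩ := List.exists_cons_of_ne_nil (move_ne_nil h)
      obtain ⟨κ, i⟩ := p
      simp only [lift, List.map_cons, ends, List.length_nil] at ht
      rw [if_neg (by omega)] at ht
      simp at ht
    · rw [eval_lift_succ, eval_lift_succ]
      apply ih
      have e1 : lift (k + 1) u = lift 1 (lift k u) := by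
        simp [lift, Nat.add_assoc]
      rw [e1] at ht
      exact ends_lift 1 _ _ ht

theorem step_inv (hr : r.Good) {D D' : Word} (h : Step D D') :
    eval r D dl [] = eval r D' dl [] := by
  obtain ⟨a, u, v, b, k, hm, h₁, h₂⟩ := h
  unfold IsDiagram at h₁ h₂
  rw [List.append_assoc, ends_append] at h₁
  rw [eval_append, eval_append, eval_append, eval_append]
  obtain ⟨n, hn⟩ : ∃ n, ends a 0 = some n := by
    rcases h : ends a 0 with _ | n
    · rw [h] at h₁; simp at h₁
    · exact ⟨n, rfl⟩
  rw [hn, Option.bind_some, ends_append] at h₁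
  apply eval_congr r a _ _ [] n hn
  intro t ht
  apply move_lift hr hm
  rw [ht]
  rcases h : ends (lift k u) n with _ | m
  · rw [h] at h₁; simp at h₁
  · simp

theorem related_inv (hr : r.Good) {D D' : Word} (h : Related D D') :
    eval r D dl [] = eval r D' dl [] := by
  induction h with
  | rel D D' h => exact step_inv hr h
  | refl D => rfl
  | symm D D' _ ih => exact ih.symm
  | trans D D' D'' _ _ ih₁ ih₂ => exact ih₁.trans ih₂

end

end Pool.Agent.H75.VK
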